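import Mathlib

/-!
In characteristic two the filtered Varchenko-Gelfand algebra does not determine the oriented
matroid of a real central arrangement, not even among the arrangements that are generic in
codimension two.
-/

set_option autoImplicit false
set_option linter.unusedSectionVars false

namespace Pool.Agent.Results.MP_157dc7_co.CharTwo

open Matrix

variable {n m ℓ ℓ' : ℕ}

/-- The forms `α i` define a real central arrangement of `n` distinct hyperplanes. -/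
def IsArr (α : Fin n → Fin ℓ → ℝ) : Prop :=
  (∀ i, α i ≠ 0) ∧ Function.Injective fun i => {x : Fin ℓ → ℝ | α i ⬝ᵥ x = 0}

/-- The arrangement is generic in codimension two: the intersection of two of the hyperplanes is
contained in no third hyperplane. -/
def GenericTwo (α : Fin n → Fin ℓ → ℝ) : Prop :=
  ∀ i j k, i ≠ j → k ≠ i → k ≠ j →
    ¬ ({x : Fin ℓ → ℝ | α i ⬝ᵥ x = 0} ∩ {x | α j ⬝ᵥ x = 0} ⊆ {x | α k ⬝ᵥ x = 0})

/-- The complement of the arrangement. -/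
abbrev Cmpl (α : Fin n → Fin ℓ → ℝ) : Type := {x : Fin ℓ → ℝ // ∀ i, α i ⬝ᵥ x ≠ 0}

/-- The chambers of the arrangement: the connected components of the complement. -/
abbrev Ch (α : Fin n → Fin ℓ → ℝ) : Type := ConnectedComponents (Cmpl α)

open Classical in
/-- The Heaviside function: one on the chambers on which `α i` is positive and zero on the other
ones. -/
noncomputable def heav (R : Type*) [CommRing R] (α : Fin n → Fin ℓ → ℝ) (i : Fin n) : Ch α → R :=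
  fun C => if ∀ x : Cmpl α, (x : Ch α) = C → 0 < α i ⬝ᵥ x.1 then 1 else 0

/-- The degree filtration: the span of the products of at most `k` Heaviside functions. -/
def F (R : Type*) [CommRing R] (α : Fin n → Fin ℓ → ℝ) (k : ℕ) : Submodule R (Ch α → R) :=
  Submodule.span R {f | ∃ s : Multiset (Fin n), s.card ≤ k ∧ f = (s.map (heav R α)).prod}

/-- The Varchenko-Gelfand algebras over `R` are isomorphic as filtered algebras. -/
def FilteredIso (R : Type*) [CommRing R] (α : Fin n → Fin ℓ → ℝ) (β : Fin m → Fin ℓ' → ℝ) : Prop :=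
  ∃ φ : (Ch α → R) ≃ₐ[R] (Ch β → R), ∀ k, (F R α k).map φ.toLinearMap = F R β k

/-- The covectors of the oriented matroid of the arrangement. -/
def covectors (α : Fin n → Fin ℓ → ℝ) : Set (Fin n → SignType) :=
  {σ | ∃ x : Fin ℓ → ℝ, σ = fun i => SignType.sign (α i ⬝ᵥ x)}

/-- The oriented matroids are isomorphic: they agree after a bijection of the ground sets and a
reorientation. -/
def OMIso (α : Fin n → Fin ℓ → ℝ) (β : Fin m → Fin ℓ' → ℝ) : Prop :=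
  ∃ (e : Fin m ≃ Fin n) (ε : Fin m → SignType), (∀ j, ε j ≠ 0) ∧
    ∀ σ : Fin n → SignType, σ ∈ covectors α ↔ (fun j => ε j * σ (e j)) ∈ covectors β

/-! ### General facts -/

lemma same_side (α : Fin n → Fin ℓ → ℝ) (i : Fin n) {x y : Cmpl α}
    (h : (x : Ch α) = (y : Ch α)) (hx : 0 < α i ⬝ᵥ x.1) : 0 < α i ⬝ᵥ y.1 := by
  have hcont : Continuous fun z : Cmpl α => α i ⬝ᵥ z.1 :=
    Continuous.dotProduct continuous_const continuous_subtype_val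
  have hclop : IsClopen {z : Cmpl α | 0 < α i ⬝ᵥ z.1} := by
    constructor
    · have : {z : Cmpl α | 0 < α i ⬝ᵥ z.1} = {z : Cmpl α | 0 ≤ α i ⬝ᵥ z.1} := by
        ext z
        constructor
        · intro h
          exact le_of_lt (show 0 < α i ⬝ᵥ z.1 from h)
        · intro h
          exact lt_of_le_of_ne (show 0 ≤ α i ⬝ᵥ z.1 from h) (Ne.symm (z.2 i))
      rw [this]
      exact isClosed_le continuous_const hcont
    · exact isOpen_lt continuous_const hcont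
  have h1 := hclop.connectedComponent_subset hx
  rw [ConnectedComponents.coe_eq_coe] at h
  rw [h] at h1
  exact h1 mem_connectedComponent

lemma heav_mk (R : Type*) [CommRing R] (α : Fin n → Fin ℓ → ℝ) (i : Fin n) (x : Cmpl α) :
    heav R α i (x : Ch α) = if 0 < α i ⬝ᵥ x.1 then 1 else 0 := by
  unfold heav
  by_cases h : 0 < α i ⬝ᵥ x.1
  · rw [if_pos h, if_pos]
    intro y hy
    exact same_side α i hy.symm h
  · rw [if_neg h, if_neg]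
    intro h'
    exact h (h' x rfl)

lemma F_mono (R : Type*) [CommRing R] (α : Fin n → Fin ℓ → ℝ) {a b : ℕ} (h : a ≤ b) :
    F R α a ≤ F R α b := by
  apply Submodule.span_mono
  rintro f ⟨s, hs, rfl⟩
  exact ⟨s, hs.trans h, rfl⟩

lemma one_mem_F (R : Type*) [CommRing R] (α : Fin n → Fin ℓ → ℝ) (k : ℕ) :
    (1 : Ch α → R) ∈ F R α k :=
  Submodule.subset_span ⟨0, by simp, by simp⟩

lemma heav_mem_F (R : Type*) [CommRing R] (α : Fin n → Fin ℓ → ℝ) (i : Fin n) :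
    heav R α i ∈ F R α 1 :=
  Submodule.subset_span ⟨{i}, by simp, by simp⟩

lemma mul_mem_F (R : Type*) [CommRing R] (α : Fin n → Fin ℓ → ℝ) {a b : ℕ} {f g : Ch α → R}
    (hf : f ∈ F R α a) (hg : g ∈ F R α b) : f * g ∈ F R α (a + b) := by
  have h := Submodule.mul_mem_mul hf hg
  unfold F at h
  rw [Submodule.span_mul_span] at h
  refine Submodule.span_mono ?_ h
  rintro _ ⟨_, ⟨s, hs, rfl⟩, _, ⟨t, ht, rfl⟩, rfl⟩
  exact ⟨s + t, by rw [Multiset.card_add]; omega, by simp⟩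

lemma comp_mem_F (R : Type*) [CommRing R] (α : Fin n → Fin ℓ → ℝ) (β : Fin m → Fin ℓ' → ℝ)
    (e : Ch α → Ch β) (h : ∀ j, (fun C => heav R β j (e C)) ∈ F R α 1) {k : ℕ} {f : Ch β → R}
    (hf : f ∈ F R β k) : (fun C => f (e C)) ∈ F R α k := by
  have hprod : ∀ s : Multiset (Fin m),
      (fun C => (s.map (heav R β)).prod (e C)) ∈ F R α s.card := by
    intro s
    induction s using Multiset.induction with
    | empty => exact one_mem_F R α 0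
    | cons j s ih =>
      have h1 := mul_mem_F R α (h j) ih
      rw [Multiset.card_cons, add_comm]
      convert h1 using 1
      funext C
      simp
  unfold F at hf
  induction hf using Submodule.span_induction with
  | mem f hf =>
    obtain ⟨s, hs, rfl⟩ := hf
    exact F_mono R α hs (hprod s)
  | zero => exact Submodule.zero_mem _
  | add f g _ _ h1 h2 => exact Submodule.add_mem _ h1 h2
  | smul c f _ h1 => exact Submodule.smul_mem _ c h1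

/-- The criterion for a filtered isomorphism. -/
lemma filteredIso_of (R : Type*) [CommRing R] (α : Fin n → Fin ℓ → ℝ) (β : Fin m → Fin ℓ' → ℝ)
    (e : Ch α ≃ Ch β) (h : ∀ j, (fun C => heav R β j (e C)) ∈ F R α 1)
    (h' : ∀ i, (fun C => heav R α i (e.symm C)) ∈ F R β 1) : FilteredIso R α β := by
  let φ : (Ch α → R) ≃ₐ[R] (Ch β → R) :=
    { toFun := fun f C => f (e.symm C)
      invFun := fun f C => f (e C)
      left_inv := fun f => by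
        funext C
        simp
      right_inv := fun f => by
        funext C
        simp
      map_mul' := fun f g => rfl
      map_add' := fun f g => rfl
      commutes' := fun r => rfl }
  refine ⟨φ, fun k => ?_⟩
  apply le_antisymm
  · rintro _ ⟨f, hf, rfl⟩
    exact comp_mem_F R β α e.symm h' hf
  · intro f hf
    refine ⟨fun C => f (e C), comp_mem_F R α β e h hf, ?_⟩
    funext C
    change f (e (e.symm C)) = f C
    rw [e.apply_symm_apply]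

/-- A homeomorphism of the complements gives a bijection of the chambers. -/
lemma chamber_equiv {α : Fin n → Fin ℓ → ℝ} {β : Fin m → Fin ℓ' → ℝ} (Φ : Cmpl α → Cmpl β)
    (Ψ : Cmpl β → Cmpl α) (hΦ : Continuous Φ) (hΨ : Continuous Ψ) (h1 : ∀ x, Ψ (Φ x) = x)
    (h2 : ∀ y, Φ (Ψ y) = y) :
    ∃ e : Ch α ≃ Ch β, (∀ x : Cmpl α, e (x : Ch α) = (Φ x : Ch β)) ∧
      ∀ y : Cmpl β, e.symm (y : Ch β) = (Ψ y : Ch α) := by
  refine ⟨⟨hΦ.connectedComponentsMap, hΨ.connectedComponentsMap, ?_, ?_⟩, ?_, ?_⟩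
  · intro C
    obtain ⟨x, rfl⟩ := ConnectedComponents.surjective_coe C
    change (Ψ (Φ x) : Ch α) = _
    rw [h1]
  · intro C
    obtain ⟨x, rfl⟩ := ConnectedComponents.surjective_coe C
    change (Φ (Ψ x) : Ch β) = _
    rw [h2]
  · intro x
    rfl
  · intro y
    rfl

/-! ### The two arrangements -/

/-- The integer forms of the first arrangement. -/
def az : Fin 8 → Fin 6 → ℤ :=
  ![![1,0,0,0,0,0], ![0,1,0,0,0,0], ![0,0,1,0,0,0], ![1,1,1,0,0,0],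
    ![0,0,0,1,0,0], ![0,0,0,0,1,0], ![0,0,0,0,0,1], ![0,0,0,1,1,1]]

/-- The integer forms of the second arrangement. -/
def bz : Fin 8 → Fin 6 → ℤ :=
  ![![1,0,0,0,0,0], ![0,1,0,0,0,0], ![0,0,1,0,0,0], ![1,1,1,0,0,0],
    ![0,0,0,0,0,1], ![0,0,0,1,0,0], ![0,0,0,0,1,0], ![1,0,0,1,1,0]]

/-- The first arrangement. -/
def α₁ : Fin 8 → Fin 6 → ℝ := fun i j => (az i j : ℝ)

/-- The second arrangement. -/
def α₂ : Fin 8 → Fin 6 → ℝ := fun i j => (bz i j : ℝ)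

lemma dot₁ (x : Fin 6 → ℝ) :
    α₁ 0 ⬝ᵥ x = x 0 ∧ α₁ 1 ⬝ᵥ x = x 1 ∧ α₁ 2 ⬝ᵥ x = x 2 ∧ α₁ 3 ⬝ᵥ x = x 0 + x 1 + x 2 ∧
    α₁ 4 ⬝ᵥ x = x 3 ∧ α₁ 5 ⬝ᵥ x = x 4 ∧ α₁ 6 ⬝ᵥ x = x 5 ∧ α₁ 7 ⬝ᵥ x = x 3 + x 4 + x 5 := by
  refine ⟨?_, ?_, ?_, ?_, ?_, ?_, ?_, ?_⟩ <;>
    simp [α₁, az, dotProduct, Fin.sum_univ_succ] <;> ring_nf

lemma dot₂ (x : Fin 6 → ℝ) :
    α₂ 0 ⬝ᵥ x = x 0 ∧ α₂ 1 ⬝ᵥ x = x 1 ∧ α₂ 2 ⬝ᵥ x = x 2 ∧ α₂ 3 ⬝ᵥ x = x 0 + x 1 + x 2 ∧
    α₂ 4 ⬝ᵥ x = x 5 ∧ α₂ 5 ⬝ᵥ x = x 3 ∧ α₂ 6 ⬝ᵥ x = x 4 ∧ α₂ 7 ⬝ᵥ x = x 0 + x 3 + x 4 := by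
  refine ⟨?_, ?_, ?_, ?_, ?_, ?_, ?_, ?_⟩ <;>
    simp [α₂, bz, dotProduct, Fin.sum_univ_succ] <;> ring_nf

lemma generic_of (z : Fin 8 → Fin 6 → ℤ) (L : List (Fin 6 → ℤ))
    (h : ∀ i j k, i ≠ j → k ≠ i → k ≠ j → ∃ v ∈ L, z i ⬝ᵥ v = 0 ∧ z j ⬝ᵥ v = 0 ∧ z k ⬝ᵥ v ≠ 0) :
    GenericTwo (fun i j => (z i j : ℝ)) := by
  intro i j k h1 h2 h3 hsub
  obtain ⟨v, -, hi, hj, hk⟩ := h i j k h1 h2 h3
  have hcast : ∀ i, (fun j => (z i j : ℝ)) ⬝ᵥ (fun j => (v j : ℝ)) = ((z i ⬝ᵥ v : ℤ) : ℝ) := by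
    intro i
    simp [dotProduct]
  have h4 := hsub (a := fun j => (v j : ℝ)) ⟨by
    change (fun j => (z i j : ℝ)) ⬝ᵥ (fun j => (v j : ℝ)) = 0
    rw [hcast, hi, Int.cast_zero], by
    change (fun j' => (z j j' : ℝ)) ⬝ᵥ (fun j => (v j : ℝ)) = 0
    rw [hcast, hj, Int.cast_zero]⟩
  have h5 : (fun j => (z k j : ℝ)) ⬝ᵥ (fun j => (v j : ℝ)) = 0 := h4
  rw [hcast, Int.cast_eq_zero] at h5
  exact hk h5

lemma exists_two : ∀ i : Fin 8, ∃ j k : Fin 8, j ≠ k ∧ i ≠ j ∧ i ≠ k := by decide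

lemma exists_third : ∀ i j : Fin 8, ∃ k : Fin 8, k ≠ i ∧ k ≠ j := by decide

lemma arr_of_generic {α : Fin 8 → Fin 6 → ℝ} (h : GenericTwo α) : IsArr α := by
  constructor
  · intro i hi
    obtain ⟨j, k, h1, h2, h3⟩ := exists_two i
    apply h j k i h1 h2 h3
    intro x _
    change α i ⬝ᵥ x = 0
    rw [hi, zero_dotProduct]
  · intro i j hij
    by_contra hne
    obtain ⟨k, h1, h2⟩ := exists_third i j
    apply h j k i h2.symm hne (Ne.symm h1)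
    intro x hx
    have hij' : {x : Fin 6 → ℝ | α i ⬝ᵥ x = 0} = {x | α j ⬝ᵥ x = 0} := hij
    rw [hij']
    exact hx.1

lemma generic₁ : GenericTwo α₁ := by
  refine generic_of az [![-1, -1, 0, 0, 0, 0], ![0, 0, 0, -1, -1, 0], ![-1, 0, 1, -1, 0, 1],
    ![0, -1, 1, 0, -1, 1], ![0, 0, -1, 0, 0, -1], ![-1, 0, 0, 0, -1, 1], ![0, -1, 1, -1, 0, 0],
    ![-1, 0, 1, 0, -1, 0], ![0, -1, 0, -1, 0, 1], ![-1, 1, 0, 0, 0, -1],
    ![0, 0, -1, -1, 1, 0]] ?_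
  decide

lemma generic₂ : GenericTwo α₂ := by
  refine generic_of bz [![-1, 0, 0, 0, 0, 0], ![0, -1, 1, 0, 0, -1], ![0, 0, 0, -1, 1, 0],
    ![-1, 0, 1, 0, 1, 0], ![0, 0, 0, -1, 0, -1], ![0, -1, 0, 0, 0, 0], ![-1, 1, 0, 1, 0, 0],
    ![-1, 0, 0, 0, 1, -1], ![0, -1, 1, 0, -1, 0], ![0, 0, -1, -1, 0, 0]] ?_
  decide

/-! ### The homeomorphism of the complements -/

/-- The map on the ambient spaces. -/
noncomputable def phi (x : Fin 6 → ℝ) : Fin 6 → ℝ :=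
  ![x 0, x 1, x 2, x 0 / x 3 * x 4, x 0 / x 3 * x 5, x 0 * x 3]

/-- The inverse map. -/
noncomputable def psi (y : Fin 6 → ℝ) : Fin 6 → ℝ :=
  ![y 0, y 1, y 2, y 5 / y 0, y 3 * y 5 / (y 0 * y 0), y 4 * y 5 / (y 0 * y 0)]

lemma phi_val (x : Fin 6 → ℝ) : phi x 0 = x 0 ∧ phi x 1 = x 1 ∧ phi x 2 = x 2 ∧
    phi x 3 = x 0 / x 3 * x 4 ∧ phi x 4 = x 0 / x 3 * x 5 ∧ phi x 5 = x 0 * x 3 :=
  ⟨rfl, rfl, rfl, rfl, rfl, rfl⟩

lemma psi_val (y : Fin 6 → ℝ) : psi y 0 = y 0 ∧ psi y 1 = y 1 ∧ psi y 2 = y 2 ∧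
    psi y 3 = y 5 / y 0 ∧ psi y 4 = y 3 * y 5 / (y 0 * y 0) ∧
    psi y 5 = y 4 * y 5 / (y 0 * y 0) :=
  ⟨rfl, rfl, rfl, rfl, rfl, rfl⟩

lemma dot_phi {x : Fin 6 → ℝ} (hx : x 3 ≠ 0) :
    α₂ 0 ⬝ᵥ phi x = α₁ 0 ⬝ᵥ x ∧ α₂ 1 ⬝ᵥ phi x = α₁ 1 ⬝ᵥ x ∧ α₂ 2 ⬝ᵥ phi x = α₁ 2 ⬝ᵥ x ∧
    α₂ 3 ⬝ᵥ phi x = α₁ 3 ⬝ᵥ x ∧ α₂ 4 ⬝ᵥ phi x = (α₁ 0 ⬝ᵥ x) * (α₁ 4 ⬝ᵥ x) ∧
    α₂ 5 ⬝ᵥ phi x = (α₁ 0 ⬝ᵥ x) / (α₁ 4 ⬝ᵥ x) * (α₁ 5 ⬝ᵥ x) ∧
    α₂ 6 ⬝ᵥ phi x = (α₁ 0 ⬝ᵥ x) / (α₁ 4 ⬝ᵥ x) * (α₁ 6 ⬝ᵥ x) ∧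
    α₂ 7 ⬝ᵥ phi x = (α₁ 0 ⬝ᵥ x) / (α₁ 4 ⬝ᵥ x) * (α₁ 7 ⬝ᵥ x) := by
  obtain ⟨a0, a1, a2, a3, a4, a5, a6, a7⟩ := dot₁ x
  obtain ⟨b0, b1, b2, b3, b4, b5, b6, b7⟩ := dot₂ (phi x)
  obtain ⟨c0, c1, c2, c3, c4, c5⟩ := phi_val x
  rw [a0, a1, a2, a3, a4, a5, a6, a7, b0, b1, b2, b3, b4, b5, b6, b7, c0, c1, c2, c3, c4, c5]
  refine ⟨rfl, rfl, rfl, rfl, rfl, rfl, rfl, ?_⟩
  field_simp

lemma dot_psi {y : Fin 6 → ℝ} (hy : y 0 ≠ 0) :
    α₁ 0 ⬝ᵥ psi y = α₂ 0 ⬝ᵥ y ∧ α₁ 1 ⬝ᵥ psi y = α₂ 1 ⬝ᵥ y ∧ α₁ 2 ⬝ᵥ psi y = α₂ 2 ⬝ᵥ y ∧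
    α₁ 3 ⬝ᵥ psi y = α₂ 3 ⬝ᵥ y ∧ α₁ 4 ⬝ᵥ psi y = (α₂ 4 ⬝ᵥ y) / (α₂ 0 ⬝ᵥ y) ∧
    α₁ 5 ⬝ᵥ psi y = (α₂ 5 ⬝ᵥ y) * (α₂ 4 ⬝ᵥ y) / ((α₂ 0 ⬝ᵥ y) * (α₂ 0 ⬝ᵥ y)) ∧
    α₁ 6 ⬝ᵥ psi y = (α₂ 6 ⬝ᵥ y) * (α₂ 4 ⬝ᵥ y) / ((α₂ 0 ⬝ᵥ y) * (α₂ 0 ⬝ᵥ y)) ∧
    α₁ 7 ⬝ᵥ psi y = (α₂ 7 ⬝ᵥ y) * (α₂ 4 ⬝ᵥ y) / ((α₂ 0 ⬝ᵥ y) * (α₂ 0 ⬝ᵥ y)) := by
  obtain ⟨a0, a1, a2, a3, a4, a5, a6, a7⟩ := dot₁ (psi y)
  obtain ⟨b0, b1, b2, b3, b4, b5, b6, b7⟩ := dot₂ y
  obtain ⟨c0, c1, c2, c3, c4, c5⟩ := psi_val y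
  rw [a0, a1, a2, a3, a4, a5, a6, a7, b0, b1, b2, b3, b4, b5, b6, b7, c0, c1, c2, c3, c4, c5]
  refine ⟨rfl, rfl, rfl, rfl, rfl, rfl, rfl, ?_⟩
  field_simp

/-- The map on the complements. -/
noncomputable def Phi (x : Cmpl α₁) : Cmpl α₂ := ⟨phi x.1, by
  have h := x.2
  obtain ⟨a0, a1, a2, a3, a4, a5, a6, a7⟩ := dot₁ x.1
  have hx3 : x.1 3 ≠ 0 := by rw [← a4]; exact h 4
  obtain ⟨b0, b1, b2, b3, b4, b5, b6, b7⟩ := dot_phi hx3
  intro i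
  fin_cases i
  · exact b0 ▸ h 0
  · exact b1 ▸ h 1
  · exact b2 ▸ h 2
  · exact b3 ▸ h 3
  · exact b4 ▸ mul_ne_zero (h 0) (h 4)
  · exact b5 ▸ mul_ne_zero (div_ne_zero (h 0) (h 4)) (h 5)
  · exact b6 ▸ mul_ne_zero (div_ne_zero (h 0) (h 4)) (h 6)
  · exact b7 ▸ mul_ne_zero (div_ne_zero (h 0) (h 4)) (h 7)⟩

/-- The inverse map on the complements. -/
noncomputable def Psi (y : Cmpl α₂) : Cmpl α₁ := ⟨psi y.1, by
  have h := y.2
  obtain ⟨a0, a1, a2, a3, a4, a5, a6, a7⟩ := dot₂ y.1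
  have hy0 : y.1 0 ≠ 0 := by rw [← a0]; exact h 0
  obtain ⟨b0, b1, b2, b3, b4, b5, b6, b7⟩ := dot_psi hy0
  have hd : (α₂ 0 ⬝ᵥ y.1) * (α₂ 0 ⬝ᵥ y.1) ≠ 0 := mul_ne_zero (h 0) (h 0)
  intro i
  fin_cases i
  · exact b0 ▸ h 0
  · exact b1 ▸ h 1
  · exact b2 ▸ h 2
  · exact b3 ▸ h 3
  · exact b4 ▸ div_ne_zero (h 4) (h 0)
  · exact b5 ▸ div_ne_zero (mul_ne_zero (h 5) (h 4)) hd
  · exact b6 ▸ div_ne_zero (mul_ne_zero (h 6) (h 4)) hd
  · exact b7 ▸ div_ne_zero (mul_ne_zero (h 7) (h 4)) hd⟩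

lemma Psi_Phi (x : Cmpl α₁) : Psi (Phi x) = x := by
  have h := x.2
  obtain ⟨a0, a1, a2, a3, a4, a5, a6, a7⟩ := dot₁ x.1
  have hx3 : x.1 3 ≠ 0 := by rw [← a4]; exact h 4
  have hx0 : x.1 0 ≠ 0 := by rw [← a0]; exact h 0
  apply Subtype.ext
  change psi (phi x.1) = x.1
  obtain ⟨c0, c1, c2, c3, c4, c5⟩ := phi_val x.1
  obtain ⟨d0, d1, d2, d3, d4, d5⟩ := psi_val (phi x.1)
  funext i
  fin_cases i
  · exact d0.trans c0
  · exact d1.trans c1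
  · exact d2.trans c2
  · refine d3.trans ?_
    rw [c5, c0]
    change _ = x.1 3
    field_simp
  · refine d4.trans ?_
    rw [c3, c5, c0]
    change _ = x.1 4
    field_simp
  · refine d5.trans ?_
    rw [c4, c5, c0]
    change _ = x.1 5
    field_simp

lemma Phi_Psi (y : Cmpl α₂) : Phi (Psi y) = y := by
  have h := y.2
  obtain ⟨a0, a1, a2, a3, a4, a5, a6, a7⟩ := dot₂ y.1
  have hy0 : y.1 0 ≠ 0 := by rw [← a0]; exact h 0
  have hy5 : y.1 5 ≠ 0 := by rw [← a4]; exact h 4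
  apply Subtype.ext
  change phi (psi y.1) = y.1
  obtain ⟨c0, c1, c2, c3, c4, c5⟩ := psi_val y.1
  obtain ⟨d0, d1, d2, d3, d4, d5⟩ := phi_val (psi y.1)
  funext i
  fin_cases i
  · exact d0.trans c0
  · exact d1.trans c1
  · exact d2.trans c2
  · refine d3.trans ?_
    rw [c0, c3, c4]
    change _ = y.1 3
    field_simp
  · refine d4.trans ?_
    rw [c0, c3, c5]
    change _ = y.1 4
    field_simp
  · refine d5.trans ?_
    rw [c0, c3]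
    change _ = y.1 5
    field_simp

lemma continuous_Phi : Continuous Phi := by
  apply Continuous.subtype_mk
  have h3 : ∀ x : Cmpl α₁, x.1 3 ≠ 0 := by
    intro x
    obtain ⟨a0, a1, a2, a3, a4, a5, a6, a7⟩ := dot₁ x.1
    rw [← a4]
    exact x.2 4
  have hc : ∀ i, Continuous fun x : Cmpl α₁ => x.1 i := fun i =>
    (continuous_apply i).comp continuous_subtype_val
  apply continuous_pi
  intro i
  fin_cases i
  · exact hc 0
  · exact hc 1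
  · exact hc 2
  · exact ((hc 0).div (hc 3) h3).mul (hc 4)
  · exact ((hc 0).div (hc 3) h3).mul (hc 5)
  · exact (hc 0).mul (hc 3)

lemma continuous_Psi : Continuous Psi := by
  apply Continuous.subtype_mk
  have h0 : ∀ y : Cmpl α₂, y.1 0 ≠ 0 := by
    intro y
    obtain ⟨a0, a1, a2, a3, a4, a5, a6, a7⟩ := dot₂ y.1
    rw [← a0]
    exact y.2 0
  have hc : ∀ i, Continuous fun y : Cmpl α₂ => y.1 i := fun i =>
    (continuous_apply i).comp continuous_subtype_val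
  have hd : ∀ y : Cmpl α₂, y.1 0 * y.1 0 ≠ 0 := fun y => mul_ne_zero (h0 y) (h0 y)
  apply continuous_pi
  intro i
  fin_cases i
  · exact hc 0
  · exact hc 1
  · exact hc 2
  · exact (hc 5).div (hc 0) h0
  · exact ((hc 3).mul (hc 5)).div ((hc 0).mul (hc 0)) hd
  · exact ((hc 4).mul (hc 5)).div ((hc 0).mul (hc 0)) hd

/-! ### The Heaviside functions in characteristic two -/

section charTwo

variable {R : Type*} [CommRing R] [CharP R 2]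

/-- The value of the Heaviside function at a number. -/
noncomputable def H (R : Type*) [CommRing R] (a : ℝ) : R := if 0 < a then 1 else 0

lemma H_mul {a b : ℝ} (ha : a ≠ 0) (hb : b ≠ 0) : H R (a * b) = 1 + H R a + H R b := by
  have h2 : (1 : R) + 1 = 0 := CharTwo.add_self_eq_zero 1
  unfold H
  rcases lt_or_gt_of_ne ha with ha | ha <;> rcases lt_or_gt_of_ne hb with hb | hb
  · rw [if_pos (mul_pos_of_neg_of_neg ha hb), if_neg (not_lt.2 ha.le), if_neg (not_lt.2 hb.le)]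
    ring
  · rw [if_neg (not_lt.2 (mul_neg_of_neg_of_pos ha hb).le), if_neg (not_lt.2 ha.le), if_pos hb]
    rw [add_zero, h2]
  · rw [if_neg (not_lt.2 (mul_neg_of_pos_of_neg ha hb).le), if_neg (not_lt.2 hb.le), if_pos ha]
    rw [add_zero, h2]
  · rw [if_pos (mul_pos ha hb), if_pos ha, if_pos hb, h2, zero_add]

lemma H_inv {a : ℝ} : H R (a⁻¹) = H R a := by
  unfold H
  simp [inv_pos]

lemma H_div {a b : ℝ} (ha : a ≠ 0) (hb : b ≠ 0) : H R (a / b) = 1 + H R a + H R b := by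
  rw [div_eq_mul_inv, H_mul ha (inv_ne_zero hb), H_inv]

lemma heav_mk' {n ℓ : ℕ} (α : Fin n → Fin ℓ → ℝ) (i : Fin n) (x : Cmpl α) :
    heav R α i (x : Ch α) = H R (α i ⬝ᵥ x.1) := heav_mk R α i x

lemma fwd (e : Ch α₁ ≃ Ch α₂) (he : ∀ x : Cmpl α₁, e (x : Ch α₁) = (Phi x : Ch α₂)) (j : Fin 8) :
    (fun C => heav R α₂ j (e C)) ∈ F R α₁ 1 := by
  have h2 : (1 : R) + 1 = 0 := CharTwo.add_self_eq_zero 1
  have key : ∀ (g : Ch α₁ → R), g ∈ F R α₁ 1 →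
      (∀ x : Cmpl α₁, H R (α₂ j ⬝ᵥ phi x.1) = g (x : Ch α₁)) →
      (fun C => heav R α₂ j (e C)) ∈ F R α₁ 1 := by
    intro g hg hg'
    convert hg using 1
    funext C
    obtain ⟨x, rfl⟩ := ConnectedComponents.surjective_coe C
    rw [he, heav_mk']
    exact hg' x
  have hd : ∀ x : Cmpl α₁, x.1 3 ≠ 0 := by
    intro x
    obtain ⟨a0, a1, a2, a3, a4, a5, a6, a7⟩ := dot₁ x.1
    rw [← a4]
    exact x.2 4
  have h0 := heav_mem_F R α₁ 0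
  have h4 := heav_mem_F R α₁ 4
  have h1 := one_mem_F R α₁ 1
  fin_cases j
  · refine key _ h0 fun x => ?_
    rw [heav_mk']
    exact congrArg _ (dot_phi (hd x)).1
  · refine key _ (heav_mem_F R α₁ 1) fun x => ?_
    rw [heav_mk']
    exact congrArg _ (dot_phi (hd x)).2.1
  · refine key _ (heav_mem_F R α₁ 2) fun x => ?_
    rw [heav_mk']
    exact congrArg _ (dot_phi (hd x)).2.2.1
  · refine key _ (heav_mem_F R α₁ 3) fun x => ?_
    rw [heav_mk']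
    exact congrArg _ (dot_phi (hd x)).2.2.2.1
  · refine key (1 + heav R α₁ 0 + heav R α₁ 4) (Submodule.add_mem _ (Submodule.add_mem _ h1 h0) h4)
      fun x => ?_
    rw [Pi.add_apply, Pi.add_apply, Pi.one_apply, heav_mk', heav_mk', ← H_mul (x.2 0) (x.2 4)]
    exact congrArg _ (dot_phi (hd x)).2.2.2.2.1
  · refine key (heav R α₁ 0 + heav R α₁ 4 + heav R α₁ 5)
      (Submodule.add_mem _ (Submodule.add_mem _ h0 h4) (heav_mem_F R α₁ 5)) fun x => ?_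
    rw [Pi.add_apply, Pi.add_apply, heav_mk', heav_mk', heav_mk']
    have h3 := (dot_phi (hd x)).2.2.2.2.2.1
    refine (congrArg _ h3).trans ?_
    rw [H_mul (div_ne_zero (x.2 0) (x.2 4)) (x.2 5), H_div (x.2 0) (x.2 4)]
    linear_combination h2
  · refine key (heav R α₁ 0 + heav R α₁ 4 + heav R α₁ 6)
      (Submodule.add_mem _ (Submodule.add_mem _ h0 h4) (heav_mem_F R α₁ 6)) fun x => ?_
    rw [Pi.add_apply, Pi.add_apply, heav_mk', heav_mk', heav_mk']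
    have h3 := (dot_phi (hd x)).2.2.2.2.2.2.1
    refine (congrArg _ h3).trans ?_
    rw [H_mul (div_ne_zero (x.2 0) (x.2 4)) (x.2 6), H_div (x.2 0) (x.2 4)]
    linear_combination h2
  · refine key (heav R α₁ 0 + heav R α₁ 4 + heav R α₁ 7)
      (Submodule.add_mem _ (Submodule.add_mem _ h0 h4) (heav_mem_F R α₁ 7)) fun x => ?_
    rw [Pi.add_apply, Pi.add_apply, heav_mk', heav_mk', heav_mk']
    have h3 := (dot_phi (hd x)).2.2.2.2.2.2.2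
    refine (congrArg _ h3).trans ?_
    rw [H_mul (div_ne_zero (x.2 0) (x.2 4)) (x.2 7), H_div (x.2 0) (x.2 4)]
    linear_combination h2

lemma bwd (e : Ch α₁ ≃ Ch α₂) (he : ∀ y : Cmpl α₂, e.symm (y : Ch α₂) = (Psi y : Ch α₁))
    (j : Fin 8) : (fun C => heav R α₁ j (e.symm C)) ∈ F R α₂ 1 := by
  have h2 : (1 : R) + 1 = 0 := CharTwo.add_self_eq_zero 1
  have key : ∀ (g : Ch α₂ → R), g ∈ F R α₂ 1 →
      (∀ y : Cmpl α₂, H R (α₁ j ⬝ᵥ psi y.1) = g (y : Ch α₂)) →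
      (fun C => heav R α₁ j (e.symm C)) ∈ F R α₂ 1 := by
    intro g hg hg'
    convert hg using 1
    funext C
    obtain ⟨x, rfl⟩ := ConnectedComponents.surjective_coe C
    rw [he, heav_mk']
    exact hg' x
  have hd : ∀ y : Cmpl α₂, y.1 0 ≠ 0 := by
    intro y
    obtain ⟨a0, a1, a2, a3, a4, a5, a6, a7⟩ := dot₂ y.1
    rw [← a0]
    exact y.2 0
  have h0 := heav_mem_F R α₂ 0
  have h4 := heav_mem_F R α₂ 4
  have h1 := one_mem_F R α₂ 1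
  fin_cases j
  · refine key _ h0 fun x => ?_
    rw [heav_mk']
    exact congrArg _ (dot_psi (hd x)).1
  · refine key _ (heav_mem_F R α₂ 1) fun x => ?_
    rw [heav_mk']
    exact congrArg _ (dot_psi (hd x)).2.1
  · refine key _ (heav_mem_F R α₂ 2) fun x => ?_
    rw [heav_mk']
    exact congrArg _ (dot_psi (hd x)).2.2.1
  · refine key _ (heav_mem_F R α₂ 3) fun x => ?_
    rw [heav_mk']
    exact congrArg _ (dot_psi (hd x)).2.2.2.1
  · refine key (1 + heav R α₂ 4 + heav R α₂ 0) (Submodule.add_mem _ (Submodule.add_mem _ h1 h4) h0)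
      fun x => ?_
    rw [Pi.add_apply, Pi.add_apply, Pi.one_apply, heav_mk', heav_mk', ← H_div (x.2 4) (x.2 0)]
    exact congrArg _ (dot_psi (hd x)).2.2.2.2.1
  · refine key (1 + heav R α₂ 5 + heav R α₂ 4)
      (Submodule.add_mem _ (Submodule.add_mem _ h1 (heav_mem_F R α₂ 5)) h4) fun x => ?_
    rw [Pi.add_apply, Pi.add_apply, Pi.one_apply, heav_mk', heav_mk']
    have h3 := (dot_psi (hd x)).2.2.2.2.2.1
    refine (congrArg _ h3).trans ?_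
    rw [H_div (mul_ne_zero (x.2 5) (x.2 4)) (mul_ne_zero (x.2 0) (x.2 0)),
      H_mul (x.2 5) (x.2 4), H_mul (x.2 0) (x.2 0)]
    linear_combination (1 + H R (α₂ 0 ⬝ᵥ x.1)) * h2
  · refine key (1 + heav R α₂ 6 + heav R α₂ 4)
      (Submodule.add_mem _ (Submodule.add_mem _ h1 (heav_mem_F R α₂ 6)) h4) fun x => ?_
    rw [Pi.add_apply, Pi.add_apply, Pi.one_apply, heav_mk', heav_mk']
    have h3 := (dot_psi (hd x)).2.2.2.2.2.2.1
    refine (congrArg _ h3).trans ?_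
    rw [H_div (mul_ne_zero (x.2 6) (x.2 4)) (mul_ne_zero (x.2 0) (x.2 0)),
      H_mul (x.2 6) (x.2 4), H_mul (x.2 0) (x.2 0)]
    linear_combination (1 + H R (α₂ 0 ⬝ᵥ x.1)) * h2
  · refine key (1 + heav R α₂ 7 + heav R α₂ 4)
      (Submodule.add_mem _ (Submodule.add_mem _ h1 (heav_mem_F R α₂ 7)) h4) fun x => ?_
    rw [Pi.add_apply, Pi.add_apply, Pi.one_apply, heav_mk', heav_mk']
    have h3 := (dot_psi (hd x)).2.2.2.2.2.2.2
    refine (congrArg _ h3).trans ?_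
    rw [H_div (mul_ne_zero (x.2 7) (x.2 4)) (mul_ne_zero (x.2 0) (x.2 0)),
      H_mul (x.2 7) (x.2 4), H_mul (x.2 0) (x.2 0)]
    linear_combination (1 + H R (α₂ 0 ⬝ᵥ x.1)) * h2

end charTwo

lemma iso (R : Type*) [CommRing R] [CharP R 2] : FilteredIso R α₁ α₂ := by
  obtain ⟨e, h1, h2⟩ := chamber_equiv Phi Psi continuous_Phi continuous_Psi Psi_Phi Phi_Psi
  exact filteredIso_of R α₁ α₂ e (fwd e h1) (bwd e h2)

/-! ### The oriented matroids -/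

/-- No vector is nonzero on exactly one of the forms of the first arrangement. -/
lemma no_coloop (x : Fin 6 → ℝ) (i₀ : Fin 8) (h : ∀ i, i ≠ i₀ → α₁ i ⬝ᵥ x = 0) :
    α₁ i₀ ⬝ᵥ x = 0 := by
  obtain ⟨a0, a1, a2, a3, a4, a5, a6, a7⟩ := dot₁ x
  have g0 : i₀ ≠ 0 → x 0 = 0 := fun h' => a0 ▸ h 0 (Ne.symm h')
  have g1 : i₀ ≠ 1 → x 1 = 0 := fun h' => a1 ▸ h 1 (Ne.symm h')
  have g2 : i₀ ≠ 2 → x 2 = 0 := fun h' => a2 ▸ h 2 (Ne.symm h')
  have g3 : i₀ ≠ 3 → x 0 + x 1 + x 2 = 0 := fun h' => a3 ▸ h 3 (Ne.symm h')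
  have g4 : i₀ ≠ 4 → x 3 = 0 := fun h' => a4 ▸ h 4 (Ne.symm h')
  have g5 : i₀ ≠ 5 → x 4 = 0 := fun h' => a5 ▸ h 5 (Ne.symm h')
  have g6 : i₀ ≠ 6 → x 5 = 0 := fun h' => a6 ▸ h 6 (Ne.symm h')
  have g7 : i₀ ≠ 7 → x 3 + x 4 + x 5 = 0 := fun h' => a7 ▸ h 7 (Ne.symm h')
  fin_cases i₀
  · refine a0.trans ?_
    linarith [g1 (by decide), g2 (by decide), g3 (by decide)]
  · refine a1.trans ?_
    linarith [g0 (by decide), g2 (by decide), g3 (by decide)]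
  · refine a2.trans ?_
    linarith [g0 (by decide), g1 (by decide), g3 (by decide)]
  · refine a3.trans ?_
    linarith [g0 (by decide), g1 (by decide), g2 (by decide)]
  · refine a4.trans ?_
    linarith [g5 (by decide), g6 (by decide), g7 (by decide)]
  · refine a5.trans ?_
    linarith [g4 (by decide), g6 (by decide), g7 (by decide)]
  · refine a6.trans ?_
    linarith [g4 (by decide), g5 (by decide), g7 (by decide)]
  · refine a7.trans ?_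
    linarith [g4 (by decide), g5 (by decide), g6 (by decide)]

lemma coloop : ∃ y : Fin 6 → ℝ, α₂ 4 ⬝ᵥ y ≠ 0 ∧ ∀ j, j ≠ 4 → α₂ j ⬝ᵥ y = 0 := by
  refine ⟨![0, 0, 0, 0, 0, 1], ?_⟩
  obtain ⟨a0, a1, a2, a3, a4, a5, a6, a7⟩ := dot₂ ![0, 0, 0, 0, 0, 1]
  refine ⟨?_, ?_⟩
  · rw [a4]
    change (1 : ℝ) ≠ 0
    exact one_ne_zero
  · intro j hj
    fin_cases j
    · exact a0
    · exact a1
    · exact a2
    · refine a3.trans ?_
      change (0 : ℝ) + 0 + 0 = 0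
      ring
    · exact absurd rfl hj
    · exact a5
    · exact a6
    · refine a7.trans ?_
      change (0 : ℝ) + 0 + 0 = 0
      ring

lemma not_iso : ¬ OMIso α₁ α₂ := by
  rintro ⟨e, ε, hε, h⟩
  obtain ⟨y, hy, hy'⟩ := coloop
  have hsq : ∀ s t : SignType, s ≠ 0 → s * (s * t) = t := by decide
  obtain ⟨x, hx⟩ := (h fun i => ε (e.symm i) * SignType.sign (α₂ (e.symm i) ⬝ᵥ y)).2 ⟨y, by
    funext j
    rw [e.symm_apply_apply]
    exact hsq _ _ (hε j)⟩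
  have h1 : ∀ i, i ≠ e 4 → α₁ i ⬝ᵥ x = 0 := by
    intro i hi
    have h2 := congrFun hx i
    have h3 : e.symm i ≠ 4 := fun h3 => hi (by rw [← h3, e.apply_symm_apply])
    rw [hy' _ h3, sign_zero, mul_zero] at h2
    exact sign_eq_zero_iff.1 h2.symm
  have h2 := congrFun hx (e 4)
  rw [no_coloop x (e 4) h1, sign_zero, e.symm_apply_apply] at h2
  rcases mul_eq_zero.1 h2 with h3 | h3
  · exact hε _ h3
  · exact hy (sign_eq_zero_iff.1 h3)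

/-- **Counterexample.** There are two real central arrangements of eight hyperplanes in
`ℝ⁶`, both generic in codimension two, whose filtered Varchenko-Gelfand algebras over every
commutative ring of characteristic two are isomorphic, while their oriented matroids are not
isomorphic. -/
theorem result.{u} : ∃ α β : Fin 8 → Fin 6 → ℝ, IsArr α ∧ IsArr β ∧ GenericTwo α ∧ GenericTwo β ∧
    (∀ (R : Type u) [CommRing R] [CharP R 2], FilteredIso R α β) ∧ ¬ OMIso α β :=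
  ⟨α₁, α₂, arr_of_generic generic₁, arr_of_generic generic₂, generic₁, generic₂,
    fun R _ _ => iso R, not_iso⟩

end Pool.Agent.Results.MP_157dc7_co.CharTwo
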